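import Mathlib

/-!
# Fields with an absolute value that is the usual one on the naturals embed into `ℂ`
-/

namespace Pool.Agent.U96.HS

open Topology

theorem norm_le_of_pow_le {a b : ℝ} (hb : 0 ≤ b) (h : ∀ n : ℕ, a ^ n ≤ 2 * b ^ n) :
    a ≤ b := by
  by_contra hlt
  push Not at hlt
  rcases hb.eq_or_lt with rfl | hb0
  · have := h 1
    simp at this
    linarith
  have h1 : 1 < a / b := (one_lt_div hb0).2 hlt
  obtain ⟨n, hn⟩ := pow_unbounded_of_one_lt 2 h1
  have h2 := h n
  rw [div_pow, lt_div_iff₀ (by positivity)] at hn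
  linarith

theorem exists_embedding_complete (L : Type*) [NormedField L] [CompleteSpace L]
    (h : ∀ n : ℕ, ‖(n : L)‖ = n) : ∃ ι : L →+* ℂ, ∀ x, ‖ι x‖ = ‖x‖ := by
  have hchar : CharZero L := by
    refine charZero_of_inj_zero fun n hn => ?_
    have := h n
    rw [hn, norm_zero] at this
    exact_mod_cast this.symm
  have hz : ∀ z : ℤ, ‖(z : L)‖ = |(z : ℝ)| := by
    intro z
    obtain ⟨n, rfl | rfl⟩ := z.eq_nat_or_neg
    · rw [Int.cast_natCast, h, Int.cast_natCast, Nat.abs_cast]
    · rw [Int.cast_neg, Int.cast_natCast, norm_neg, h, Int.cast_neg, Int.cast_natCast, abs_neg,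
        Nat.abs_cast]
  have hq : ∀ q : ℚ, ‖(q : L)‖ = |(q : ℝ)| := by
    intro q
    rw [Rat.cast_def, norm_div, hz, h, Rat.cast_def, abs_div, Nat.abs_cast]
  have hiso : Isometry (Rat.castHom L) := by
    refine Isometry.of_dist_eq fun a b => ?_
    rw [dist_eq_norm, ← map_sub, Rat.dist_eq, ← Rat.cast_sub]
    exact hq _
  have hui : IsUniformInducing (Rat.castHom ℝ) := Rat.isUniformEmbedding_coe_real.isUniformInducing
  have hdr : DenseRange (Rat.castHom ℝ) := Rat.denseRange_cast
  let φ : ℝ →+* L := IsDenseInducing.extendRingHom (i := Rat.castHom ℝ) (f := Rat.castHom L)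
    hui hdr hiso.uniformContinuous
  have hφc : Continuous φ :=
    (uniformContinuous_uniformly_extend hui hdr hiso.uniformContinuous).continuous
  have hφ : ∀ r : ℝ, ‖φ r‖ = |r| := by
    intro r
    refine DenseRange.induction_on (p := fun r : ℝ => ‖φ r‖ = |r|) hdr r ?_ ?_
    · exact isClosed_eq (by fun_prop) (by fun_prop)
    · intro q
      have : φ (Rat.castHom ℝ q) = (q : L) := by
        simp
      rw [this, hq]
      simp
  let _ : Algebra ℝ L := φ.toAlgebra
  let _ : NormedAlgebra ℝ L :=
    { (inferInstance : Algebra ℝ L) with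
      norm_smul_le := fun r x => by
        rw [Algebra.smul_def, norm_mul]
        exact le_of_eq (by rw [show algebraMap ℝ L r = φ r from rfl, hφ, Real.norm_eq_abs]) }
  rcases NormedAlgebra.Real.nonempty_algEquiv_or L with ⟨⟨e⟩⟩ | ⟨⟨e⟩⟩
  · refine ⟨Complex.ofRealHom.comp (e : L →+* ℝ), fun x => ?_⟩
    have h1 : φ (e x) = x := by
      have : e (algebraMap ℝ L (e x)) = e x := by rw [e.commutes]; rfl
      exact e.injective this
    have h2 := hφ (e x)
    rw [h1] at h2
    simp [h2]
  · refine ⟨(e : L →+* ℂ), fun x => ?_⟩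
    have hI : ‖e.symm Complex.I‖ = 1 := by
      have h1 : e.symm Complex.I * e.symm Complex.I = -1 := by
        rw [← map_mul, Complex.I_mul_I, map_neg, map_one]
      have h2 : ‖e.symm Complex.I‖ * ‖e.symm Complex.I‖ = 1 := by
        rw [← norm_mul, h1, norm_neg, norm_one]
      nlinarith [norm_nonneg (e.symm Complex.I)]
    have hle : ∀ x : L, ‖x‖ ≤ 2 * ‖e x‖ := by
      intro x
      have h1 : x = φ (e x).re + φ (e x).im * e.symm Complex.I := by
        apply e.injective
        rw [map_add, map_mul, AlgEquiv.apply_symm_apply]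
        have h3 : ∀ r : ℝ, e (φ r) = (r : ℂ) := fun r => e.commutes r
        rw [h3, h3]
        exact (Complex.re_add_im (e x)).symm
      calc ‖x‖ ≤ ‖φ (e x).re‖ + ‖φ (e x).im * e.symm Complex.I‖ := by
            conv_lhs => rw [h1]
            exact norm_add_le _ _
        _ = |(e x).re| + |(e x).im| := by rw [norm_mul, hI, mul_one, hφ, hφ]
        _ ≤ ‖e x‖ + ‖e x‖ := add_le_add (Complex.abs_re_le_norm _) (Complex.abs_im_le_norm _)
        _ = 2 * ‖e x‖ := by ring
    have hle' : ∀ x : L, ‖x‖ ≤ ‖e x‖ := by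
      intro x
      refine norm_le_of_pow_le (norm_nonneg _) fun n => ?_
      have := hle (x ^ n)
      rwa [map_pow, norm_pow, norm_pow] at this
    refine le_antisymm ?_ (hle' x)
    by_cases hx : x = 0
    · simp [hx]
    have h1 := hle' x⁻¹
    rw [map_inv₀, norm_inv, norm_inv] at h1
    exact (inv_le_inv₀ (norm_pos_iff.2 hx)
      (norm_pos_iff.2 (by simpa using hx))).1 h1

/-- A field with a real absolute value that is the usual one on the natural numbers embeds
isometrically into `ℂ` (Ostrowski). -/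
theorem exists_embedding (K : Type*) [Field K] (v : AbsoluteValue K ℝ)
    (h : ∀ n : ℕ, v (n : K) = n) : ∃ ι : K →+* ℂ, ∀ x, ‖ι x‖ = v x := by
  have hcast : ∀ n : ℕ, ‖((n : v.Completion))‖ = n := by
    intro n
    have h1 : ((n : WithAbs v) : v.Completion) = (n : v.Completion) := by
      exact map_natCast (UniformSpace.Completion.coeRingHom (α := WithAbs v)) n
    rw [← h1, UniformSpace.Completion.norm_coe]
    exact h n
  obtain ⟨ι, hι⟩ := exists_embedding_complete v.Completion hcast
  refine ⟨(ι.comp (UniformSpace.Completion.coeRingHom (α := WithAbs v))).comp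
    ((WithAbs.equiv v).symm : K →+* WithAbs v), fun x => ?_⟩
  simp only [RingHom.comp_apply]
  rw [hι]
  exact UniformSpace.Completion.norm_coe (E := WithAbs v) _

end Pool.Agent.U96.HS
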