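import Mathlib

/-!
# Hyperfields and quotients of division rings

`Hyperfield` : (commutative) hyperfields; `quo F Γ` : the quotient hyperfield `F/Γ` of a division
ring by a normal subgroup of its unit group with abelian quotient.
-/

namespace Pool.Agent.U96.HS

universe u v

/-- A (commutative) hyperfield: a commutative group with zero `carrier` together with a
hyperaddition `hadd` (with values in sets). -/
structure Hyperfield where
  /-- the underlying set -/
  carrier : Type u
  /-- the multiplication: nonzero elements form an abelian group and `0 * x = 0` -/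
  [mul : CommGroupWithZero carrier]
  /-- the hyperaddition -/
  hadd : carrier → carrier → Set carrier
  nonempty : ∀ x y, (hadd x y).Nonempty
  comm : ∀ x y, hadd x y = hadd y x
  assoc : ∀ x y z, (⋃ w ∈ hadd x y, hadd w z) = ⋃ w ∈ hadd y z, hadd x w
  zero_hadd : ∀ x, hadd 0 x = {x}
  exists_unique_neg : ∀ x, ∃! y, (0 : carrier) ∈ hadd x y
  reversible : ∀ x y z y', (0 : carrier) ∈ hadd y y' → (z ∈ hadd x y ↔ x ∈ hadd z y')
  distrib : ∀ a x y, (fun z => a * z) '' hadd x y = hadd (a * x) (a * y)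

attribute [instance] Hyperfield.mul

/-- Isomorphism of hyperfields: a bijection `f` with `f 0 = 0`, `f (x y) = f x f y` and
`f (x ⊞ y) = f x ⊞ f y`. -/
def Hyperfield.Isomorphic (H : Hyperfield.{u}) (H' : Hyperfield.{v}) : Prop :=
  ∃ f : H.carrier → H'.carrier, Function.Bijective f ∧ f 0 = 0 ∧ (∀ x y, f (x * y) = f x * f y) ∧
    ∀ x y, f '' H.hadd x y = H'.hadd (f x) (f y)

section Quotient

variable {F : Type u} [DivisionRing F] (Γ : Subgroup Fˣ) [Γ.Normal]

/-- The class in `{0} ∪ Fˣ/Γ` of an element of `F`. -/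
noncomputable def cls (x : F) : WithZero (Fˣ ⧸ Γ) :=
  open Classical in
  if h : x = 0 then 0 else ((QuotientGroup.mk (Units.mk0 x h) : Fˣ ⧸ Γ) : WithZero (Fˣ ⧸ Γ))

/-- The hyperaddition of `F/Γ`: `a ⊞ b` is the set of classes of sums `x + y`, where `x` has class
`a` and `y` has class `b`. -/
def haddQ (a b : WithZero (Fˣ ⧸ Γ)) : Set (WithZero (Fˣ ⧸ Γ)) :=
  {c | ∃ x y : F, cls Γ x = a ∧ cls Γ y = b ∧ cls Γ (x + y) = c}

omit [Γ.Normal] in
@[simp] theorem cls_zero : cls Γ (0 : F) = 0 := by simp [cls]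

omit [Γ.Normal] in
theorem cls_units (x : Fˣ) : cls Γ (x : F) = ((QuotientGroup.mk x : Fˣ ⧸ Γ) :
    WithZero (Fˣ ⧸ Γ)) := by
  simp [cls]

theorem cls_eq_zero {x : F} : cls Γ x = 0 ↔ x = 0 := by
  constructor
  · intro h
    by_contra hx
    have := cls_units Γ (Units.mk0 x hx)
    rw [Units.val_mk0, h] at this
    exact WithZero.coe_ne_zero this.symm
  · rintro rfl
    simp

theorem cls_one : cls Γ (1 : F) = 1 := by
  have := cls_units Γ (1 : Fˣ)
  simpa using this

theorem cls_mul (x y : F) : cls Γ (x * y) = cls Γ x * cls Γ y := by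
  by_cases hx : x = 0
  · simp [hx]
  by_cases hy : y = 0
  · simp [hy]
  have h1 := cls_units Γ (Units.mk0 x hx)
  have h2 := cls_units Γ (Units.mk0 y hy)
  have h3 := cls_units Γ (Units.mk0 x hx * Units.mk0 y hy)
  simp only [Units.val_mk0, Units.val_mul] at h1 h2 h3
  rw [h1, h2, h3, QuotientGroup.mk_mul, WithZero.coe_mul]

theorem cls_surjective : Function.Surjective (cls Γ) := by
  intro a
  induction a using WithZero.recZeroCoe with
  | zero => exact ⟨0, by simp⟩
  | coe a =>
    obtain ⟨x, rfl⟩ := QuotientGroup.mk_surjective a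
    exact ⟨x, cls_units Γ x⟩

/-- two elements have the same class iff they differ by a factor in `Γ` (on the right). -/
theorem cls_eq_iff {x y : F} : cls Γ x = cls Γ y ↔ ∃ g ∈ Γ, y = x * (g : Fˣ) := by
  constructor
  · intro h
    by_cases hx : x = 0
    · subst hx
      rw [cls_zero, eq_comm, cls_eq_zero] at h
      exact ⟨1, Γ.one_mem, by simp [h]⟩
    · by_cases hy : y = 0
      · subst hy
        rw [cls_zero, cls_eq_zero] at h
        exact absurd h hx
      · have h1 := cls_units Γ (Units.mk0 x hx)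
        have h2 := cls_units Γ (Units.mk0 y hy)
        rw [Units.val_mk0] at h1 h2
        rw [h1, h2, WithZero.coe_inj, QuotientGroup.eq] at h
        refine ⟨_, h, ?_⟩
        simp [hx]
  · rintro ⟨g, hg, rfl⟩
    rw [cls_mul, cls_units, (QuotientGroup.eq_one_iff g).2 hg, WithZero.coe_one, mul_one]

theorem cls_neg_ne {x y : F} (h : x + y = 0) : cls Γ y = cls Γ (-1 : F) * cls Γ x := by
  rw [← cls_mul, neg_one_mul, ← eq_neg_of_add_eq_zero_right h]

/-- If `Fˣ/Γ` is abelian, then `F/Γ` is a hyperfield. -/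
noncomputable def quo (hab : ∀ a b : Fˣ ⧸ Γ, a * b = b * a) : Hyperfield.{u} :=
  letI : CommGroup (Fˣ ⧸ Γ) := { (inferInstance : Group (Fˣ ⧸ Γ)) with mul_comm := hab }
  { carrier := WithZero (Fˣ ⧸ Γ)
    mul := inferInstance
    hadd := haddQ Γ
    nonempty := by
      intro a b
      obtain ⟨x, rfl⟩ := cls_surjective Γ a
      obtain ⟨y, rfl⟩ := cls_surjective Γ b
      exact ⟨_, x, y, rfl, rfl, rfl⟩
    comm := by
      intro a b
      ext c
      constructor
      · rintro ⟨x, y, h1, h2, h3⟩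
        exact ⟨y, x, h2, h1, by rw [add_comm]; exact h3⟩
      · rintro ⟨x, y, h1, h2, h3⟩
        exact ⟨y, x, h2, h1, by rw [add_comm]; exact h3⟩
    assoc := by
      intro a b c
      ext d
      simp only [Set.mem_iUnion, exists_prop]
      constructor
      · rintro ⟨e, ⟨x, y, h1, h2, h3⟩, ⟨u, z, h4, h5, h6⟩⟩
        obtain ⟨g, hg, rfl⟩ := (cls_eq_iff Γ).1 (h3.trans h4.symm)
        refine ⟨cls Γ (y * g + z), ⟨y * g, z, ?_, h5, rfl⟩, ⟨x * g, y * g + z, ?_, rfl, ?_⟩⟩
        · rw [← h2]; exact ((cls_eq_iff Γ).2 ⟨g, hg, rfl⟩).symm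
        · rw [← h1]; exact ((cls_eq_iff Γ).2 ⟨g, hg, rfl⟩).symm
        · rw [← h6, ← add_assoc, add_mul]
      · rintro ⟨e, ⟨y, z, h1, h2, h3⟩, ⟨x, u, h4, h5, h6⟩⟩
        obtain ⟨g, hg, rfl⟩ := (cls_eq_iff Γ).1 (h3.trans h5.symm)
        refine ⟨cls Γ (x + y * g), ⟨x, y * g, h4, ?_, rfl⟩, ⟨x + y * g, z * g, rfl, ?_, ?_⟩⟩
        · rw [← h1]; exact ((cls_eq_iff Γ).2 ⟨g, hg, rfl⟩).symm
        · rw [← h2]; exact ((cls_eq_iff Γ).2 ⟨g, hg, rfl⟩).symm
        · rw [← h6, add_assoc, add_mul]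
    zero_hadd := by
      intro a
      ext c
      constructor
      · rintro ⟨x, y, h1, h2, h3⟩
        rw [cls_eq_zero] at h1
        subst h1
        rw [zero_add] at h3
        exact h3.symm.trans h2
      · rintro rfl
        obtain ⟨y, rfl⟩ := cls_surjective Γ c
        exact ⟨0, y, by simp, rfl, by simp⟩
    exists_unique_neg := by
      intro a
      obtain ⟨x, rfl⟩ := cls_surjective Γ a
      refine ⟨cls Γ (-x), ⟨x, -x, rfl, rfl, by simp⟩, ?_⟩
      rintro b ⟨x', y', h1, h2, h3⟩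
      rw [cls_eq_zero] at h3
      rw [← h2, cls_neg_ne Γ h3, h1, ← cls_mul, neg_one_mul]
    reversible := by
      rintro a b c b' ⟨y₀, y₁, h1, h2, h3⟩
      rw [cls_eq_zero] at h3
      have hb' : b' = cls Γ (-1 : F) * b := by
        rw [← h2, cls_neg_ne Γ h3, h1]
      constructor
      · rintro ⟨x, y, h4, h5, h6⟩
        refine ⟨x + y, -y, h6, ?_, by rw [add_neg_cancel_right]; exact h4⟩
        rw [hb', ← h5, ← cls_mul, neg_one_mul]
      · rintro ⟨z, y, h4, h5, h6⟩
        refine ⟨z + y, -y, h6, ?_, by rw [add_neg_cancel_right]; exact h4⟩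
        rw [← neg_one_mul, cls_mul, h5, hb', ← mul_assoc, ← cls_mul]
        simp [cls_one]
    distrib := by
      intro a b c
      obtain ⟨α, rfl⟩ := cls_surjective Γ a
      by_cases hα : α = 0
      · subst hα
        ext d
        constructor
        · rintro ⟨z, ⟨x, y, h1, h2, h3⟩, rfl⟩
          exact ⟨0, 0, by simp, by simp, by simp⟩
        · rintro ⟨x, y, h1, h2, h3⟩
          simp only [cls_zero, zero_mul, cls_eq_zero] at h1 h2
          subst h1 h2
          obtain ⟨x, rfl⟩ := cls_surjective Γ b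
          obtain ⟨y, rfl⟩ := cls_surjective Γ c
          refine ⟨cls Γ (x + y), ⟨x, y, rfl, rfl, rfl⟩, ?_⟩
          simpa using h3
      ext d
      constructor
      · rintro ⟨z, ⟨x, y, h1, h2, h3⟩, rfl⟩
        refine ⟨α * x, α * y, by rw [cls_mul, h1], by rw [cls_mul, h2], ?_⟩
        rw [← mul_add, cls_mul, h3]
      · rintro ⟨x, y, h1, h2, h3⟩
        refine ⟨cls Γ (α⁻¹ * (x + y)), ⟨α⁻¹ * x, α⁻¹ * y, ?_, ?_, ?_⟩, ?_⟩
        · rw [cls_mul, h1, ← mul_assoc, ← cls_mul, inv_mul_cancel₀ hα, cls_one, one_mul]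
        · rw [cls_mul, h2, ← mul_assoc, ← cls_mul, inv_mul_cancel₀ hα, cls_one, one_mul]
        · rw [mul_add]
        · change cls Γ α * cls Γ (α⁻¹ * (x + y)) = d
          rw [← cls_mul, mul_inv_cancel_left₀ hα, h3] }

end Quotient

end Pool.Agent.U96.HS
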